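import Pool.Agent.H37.UM.Stmts

/-!
# Project UM: calculus of majorants and sums over partitions (used by M1, M2, M3, M4)
-/

set_option autoImplicit false

namespace Pool.Agent.H66.UM

open PowerSeries Finset Pool.Agent.H37.UM

theorem maj_nonneg {r : ℝ} {f : ℤ⟦X⟧} {A : ℝ} (h : Maj r f A) : 0 ≤ A := by simpa using h 0

theorem maj_mono {r : ℝ} {f : ℤ⟦X⟧} {A B : ℝ} (h : Maj r f A) (hab : A ≤ B) : Maj r f B :=
  fun K => (h K).trans hab

theorem maj_one (r : ℝ) : Maj r 1 1 := by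
  intro K
  rcases K with _ | K
  · simp
  · rw [Finset.sum_range_succ', Finset.sum_eq_zero]
    · simp
    · intro k _
      simp [coeff_one]

theorem maj_zero (r : ℝ) : Maj r 0 0 := by
  intro K
  simp

theorem maj_prod (hM : MAJStmt) {ι : Type} (s : Finset ι) (f : ι → ℤ⟦X⟧) (A : ι → ℝ) {r : ℝ}
    (hr : 0 < r) (h : ∀ i ∈ s, Maj r (f i) (A i)) : Maj r (∏ i ∈ s, f i) (∏ i ∈ s, A i) := by
  classical
  induction s using Finset.induction_on with
  | empty => simpa using maj_one r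
  | insert a s ha ih =>
    rw [Finset.prod_insert ha, Finset.prod_insert ha]
    exact hM.1 r _ _ _ _ hr (h a (Finset.mem_insert_self a s))
      (ih fun i hi => h i (Finset.mem_insert_of_mem hi))

theorem maj_sum (hM : MAJStmt) {ι : Type} (s : Finset ι) (f : ι → ℤ⟦X⟧) (A : ι → ℝ) {r : ℝ}
    (hr : 0 < r) (h : ∀ i ∈ s, Maj r (f i) (A i)) : Maj r (∑ i ∈ s, f i) (∑ i ∈ s, A i) := by
  classical
  induction s using Finset.induction_on with
  | empty => simpa using maj_zero r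
  | insert a s ha ih =>
    rw [Finset.sum_insert ha, Finset.sum_insert ha]
    exact hM.2.1 r _ _ _ _ hr (h a (Finset.mem_insert_self a s))
      (ih fun i hi => h i (Finset.mem_insert_of_mem hi))

theorem maj_pow (hM : MAJStmt) {f : ℤ⟦X⟧} {A : ℝ} {r : ℝ} (hr : 0 < r) (h : Maj r f A) (n : ℕ) :
    Maj r (f ^ n) (A ^ n) := by
  induction n with
  | zero => simpa using maj_one r
  | succ n ih => rw [pow_succ, pow_succ]; exact hM.1 r _ _ _ _ hr ih h

/-- partitions of `j` without parts `1` -/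
noncomputable def P2 (j : ℕ) : Finset (j.Partition) :=
  (univ : Finset j.Partition).filter (fun p => 1 ∉ p.parts)

theorem h2_eq (j : ℕ) : h2 j = ∑ p ∈ P2 j, (p.parts.map g).prod := rfl

theorem mem_two {j : ℕ} {p : j.Partition} (hp : p ∈ P2 j) {i : ℕ} (hi : i ∈ p.parts) :
    i ∈ Icc 2 j := by
  rw [P2, Finset.mem_filter] at hp
  have h0 := p.parts_pos hi
  have h1 : i ≠ 1 := fun h => hp.2 (h ▸ hi)
  have h2 : i ≤ j := by
    have := Multiset.le_sum_of_mem hi
    rwa [p.parts_sum] at this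
  rw [Finset.mem_Icc]
  omega

theorem parts_prod {M : Type} [CommMonoid M] (φ : ℕ → M) {j : ℕ} {p : j.Partition}
    (hp : p ∈ P2 j) : (p.parts.map φ).prod = ∏ i ∈ Icc 2 j, φ i ^ p.parts.count i := by
  classical
  rw [Finset.prod_multiset_map_count]
  refine Finset.prod_subset ?_ ?_
  · intro i hi
    exact mem_two hp (Multiset.mem_toFinset.1 hi)
  · intro i _ hi
    have : p.parts.count i = 0 := by
      rw [Multiset.count_eq_zero]
      exact fun h => hi (Multiset.mem_toFinset.2 h)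
    rw [this, pow_zero]

theorem count_sum {j : ℕ} {p : j.Partition} (hp : p ∈ P2 j) :
    ∑ i ∈ Icc 2 j, p.parts.count i * i = j := by
  classical
  conv_rhs => rw [← p.parts_sum, Finset.sum_multiset_count]
  symm
  simp only [smul_eq_mul]
  refine Finset.sum_subset ?_ ?_
  · intro i hi
    exact mem_two hp (Multiset.mem_toFinset.1 hi)
  · intro i _ hi
    have : p.parts.count i = 0 := by
      rw [Multiset.count_eq_zero]
      exact fun h => hi (Multiset.mem_toFinset.2 h)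
    rw [this, zero_mul]

theorem count_le {j : ℕ} {p : j.Partition} (hp : p ∈ P2 j) {i : ℕ} (hi : i ∈ Icc 2 j) :
    p.parts.count i ∈ range (j / i + 1) := by
  have h := Finset.single_le_sum (f := fun i => p.parts.count i * i)
    (fun _ _ => Nat.zero_le _) hi
  rw [count_sum hp] at h
  rw [Finset.mem_range, Nat.lt_succ_iff]
  have h2 : 0 < i := by rw [Finset.mem_Icc] at hi; omega
  exact (Nat.le_div_iff_mul_le h2).2 h

theorem sum_le_prod (φ : ℕ → ℕ → ℝ) (hφ : ∀ i m, 0 ≤ φ i m) (j : ℕ) :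
    ∑ p ∈ P2 j, ∏ i ∈ Icc 2 j, φ i (p.parts.count i) ≤
      ∏ i ∈ Icc 2 j, ∑ m ∈ range (j / i + 1), φ i m := by
  classical
  rw [Finset.prod_sum]
  let e : j.Partition → ((a : ℕ) → a ∈ Icc 2 j → ℕ) := fun p a _ => p.parts.count a
  have hinj : Set.InjOn e (P2 j : Set (j.Partition)) := by
    intro p hp q hq hpq
    have hp' : p ∈ P2 j := hp
    have hq' : q ∈ P2 j := hq
    apply Nat.Partition.ext
    rw [Multiset.ext]
    intro a
    by_cases ha : a ∈ Icc 2 j
    · exact congrFun (congrFun hpq a) ha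
    · rw [Multiset.count_eq_zero.2 fun h => ha (mem_two hp' h),
        Multiset.count_eq_zero.2 fun h => ha (mem_two hq' h)]
  have h1 : ∑ p ∈ P2 j, ∏ i ∈ Icc 2 j, φ i (p.parts.count i) =
      ∑ x ∈ (P2 j).image e, ∏ y ∈ (Icc 2 j).attach, φ y.1 (x y.1 y.2) := by
    rw [Finset.sum_image hinj]
    refine Finset.sum_congr rfl fun p _ => ?_
    rw [← Finset.prod_attach (Icc 2 j)]
  rw [h1]
  refine Finset.sum_le_sum_of_subset_of_nonneg ?_ ?_
  · intro x hx
    rw [Finset.mem_image] at hx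
    obtain ⟨p, hp, rfl⟩ := hx
    rw [Finset.mem_pi]
    intro a ha
    exact count_le hp ha
  · intro x _ _
    exact Finset.prod_nonneg fun _ _ => hφ _ _

theorem wg {i : ℕ} (hi : 1 ≤ i) : w i * g i = 1 := by
  refine PowerSeries.mul_invOfUnit _ _ ?_
  simp only [w, map_add, map_one, map_pow, map_neg, constantCoeff_X, neg_zero, Units.val_one]
  rw [zero_pow (by omega), add_zero]

theorem maj_wt (hM : MAJStmt) {r : ℝ} (hr : 0 < r) (hr1 : r < 1) {i : ℕ} (hi : 1 ≤ i) (c m : ℕ) :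
    Maj r (w i ^ c * g i ^ m) (wt r i c m) := by
  have hw := hM.2.2.1 r i hr
  have hg := hM.2.2.2.1 r i hr hr1 hi
  unfold wt
  split_ifs with h
  · have h1 : w i ^ c * g i ^ m = w i ^ (c - m) := by
      conv_lhs => rw [← Nat.sub_add_cancel h, pow_add, mul_assoc, ← mul_pow, wg hi, one_pow, mul_one]
    rw [h1]
    exact maj_pow hM hr hw _
  · have h' : c ≤ m := by omega
    have h1 : w i ^ c * g i ^ m = g i ^ (m - c) := by
      conv_lhs => rw [← Nat.sub_add_cancel h', pow_add, mul_left_comm, ← mul_pow, wg hi, one_pow,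
        mul_one]
    rw [h1]
    have := maj_pow hM hr hg (m - c)
    rwa [one_div, inv_pow] at this

/-- `1 - r ^ i ≥ (1 - r ^ 2) ^ (i / 2)` for `i ≥ 2` -/
theorem one_sub_pow_ge {r : ℝ} (hr : 0 < r) (hr1 : r < 1) {i : ℕ} (hi : 2 ≤ i) :
    (1 - r ^ 2) ^ ((i : ℝ) / 2) ≤ 1 - r ^ i := by
  have h2 : (1 : ℝ) ≤ (i : ℝ) / 2 := by
    have : (2 : ℝ) ≤ i := by exact_mod_cast hi
    linarith
  have hx0 : 0 < r ^ 2 := by positivity
  have hx1 : r ^ 2 < 1 := by nlinarith
  have h3 : r ^ i = (r ^ 2) ^ ((i : ℝ) / 2) := by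
    rw [← Real.rpow_natCast r 2, ← Real.rpow_mul hr.le]
    rw [show ((2 : ℕ) : ℝ) * ((i : ℝ) / 2) = (i : ℝ) by push_cast; ring, Real.rpow_natCast]
  have h4 : (1 - r ^ 2) ^ ((i : ℝ) / 2) ≤ 1 - r ^ 2 := by
    have := Real.rpow_le_rpow_of_exponent_ge (by linarith : 0 < 1 - r ^ 2) (by linarith) h2
    rwa [Real.rpow_one] at this
  have h5 : (r ^ 2) ^ ((i : ℝ) / 2) ≤ r ^ 2 := by
    have := Real.rpow_le_rpow_of_exponent_ge hx0 hx1.le h2
    rwa [Real.rpow_one] at this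
  rw [h3]
  linarith

theorem inv_one_sub_le {r : ℝ} (hr : 0 < r) (hr1 : r < 1) {i : ℕ} (hi : 2 ≤ i) :
    1 / (1 - r ^ i) ≤ ((1 - r ^ 2) ^ (-(1 / 2) : ℝ)) ^ i := by
  have hx1 : 0 < 1 - r ^ 2 := by nlinarith
  have h1 := one_sub_pow_ge hr hr1 hi
  have h0 : 0 < (1 - r ^ 2) ^ ((i : ℝ) / 2) := Real.rpow_pos_of_pos hx1 _
  have h2 : ((1 - r ^ 2) ^ (-(1 / 2) : ℝ)) ^ i = ((1 - r ^ 2) ^ ((i : ℝ) / 2))⁻¹ := by
    rw [← Real.rpow_natCast, ← Real.rpow_mul hx1.le, ← Real.rpow_neg hx1.le]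
    congr 1
    ring
  rw [h2, one_div]
  exact inv_anti₀ h0 h1

/-- majorant of `h2 j` -/
theorem maj_h2 (hM : MAJStmt) (hP : PNStmt) {r : ℝ} (hr : 0 < r) (hr1 : r < 1) (j : ℕ) :
    Maj r (h2 j) (Real.exp (2.5651 * √(j : ℝ)) * (1 - r ^ 2) ^ (-(j : ℝ) / 2)) := by
  have hx1 : 0 < 1 - r ^ 2 := by nlinarith
  rw [h2_eq]
  have h1 : ∀ p ∈ P2 j, Maj r ((p.parts.map g).prod) ((1 - r ^ 2) ^ (-(j : ℝ) / 2)) := by
    intro p hp
    rw [parts_prod g hp]
    have h2 : Maj r (∏ i ∈ Icc 2 j, g i ^ p.parts.count i)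
        (∏ i ∈ Icc 2 j, (1 / (1 - r ^ i)) ^ p.parts.count i) := by
      refine maj_prod hM _ _ _ hr fun i hi => ?_
      rw [Finset.mem_Icc] at hi
      exact maj_pow hM hr (hM.2.2.2.1 r i hr hr1 (by omega)) _
    refine maj_mono h2 ?_
    calc ∏ i ∈ Icc 2 j, (1 / (1 - r ^ i)) ^ p.parts.count i
        ≤ ∏ i ∈ Icc 2 j, (((1 - r ^ 2) ^ (-(1 / 2) : ℝ)) ^ i) ^ p.parts.count i := by
          refine Finset.prod_le_prod ?_ ?_
          · intro i hi
            rw [Finset.mem_Icc] at hi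
            have : r ^ i < 1 := pow_lt_one₀ hr.le hr1 (by omega)
            have : 0 < 1 - r ^ i := by linarith
            positivity
          · intro i hi
            rw [Finset.mem_Icc] at hi
            have : r ^ i < 1 := pow_lt_one₀ hr.le hr1 (by omega)
            have : 0 < 1 - r ^ i := by linarith
            exact pow_le_pow_left₀ (by positivity) (inv_one_sub_le hr hr1 hi.1) _
      _ = ((1 - r ^ 2) ^ (-(1 / 2) : ℝ)) ^ (∑ i ∈ Icc 2 j, p.parts.count i * i) := by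
          rw [← Finset.prod_pow_eq_pow_sum]
          refine Finset.prod_congr rfl fun i _ => ?_
          rw [← pow_mul, mul_comm]
      _ = (1 - r ^ 2) ^ (-(j : ℝ) / 2) := by
          rw [count_sum hp, ← Real.rpow_natCast, ← Real.rpow_mul hx1.le]
          congr 1
          ring
  have h3 := maj_sum hM (P2 j) _ (fun _ => (1 - r ^ 2) ^ (-(j : ℝ) / 2)) hr h1
  refine maj_mono h3 ?_
  rw [Finset.sum_const, nsmul_eq_mul]
  refine mul_le_mul_of_nonneg_right ?_ (Real.rpow_nonneg hx1.le _)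
  refine le_trans ?_ (hP j)
  have : (P2 j).card ≤ Fintype.card (j.Partition) := by
    rw [← Finset.card_univ]
    exact Finset.card_le_card (Finset.filter_subset _ _)
  exact_mod_cast this

theorem Fe_nonneg {m : ℕ} {r : ℝ} (hr : 0 < r) : 0 ≤ Fe m r := by
  unfold Fe
  positivity

theorem tel (x : ℝ) (v : ℕ) :
    (1 - x) * ((1 + x) * ∏ a ∈ range v, (1 + x ^ (2 ^ (a + 1)))) = 1 - x ^ (2 ^ (v + 1)) := by
  induction v with
  | zero => simp; ring
  | succ v ih =>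
    rw [Finset.prod_range_succ]
    have h : (1 - x) * ((1 + x) * ((∏ a ∈ range v, (1 + x ^ (2 ^ (a + 1)))) *
        (1 + x ^ (2 ^ (v + 1))))) = (1 - x ^ (2 ^ (v + 1))) * (1 + x ^ (2 ^ (v + 1))) := by
      rw [← ih]; ring
    rw [h]
    have h2 : x ^ (2 ^ (v + 1 + 1)) = x ^ (2 ^ (v + 1)) * x ^ (2 ^ (v + 1)) := by
      rw [← pow_add, pow_succ 2 (v + 1)]
      congr 1
      ring
    rw [h2]
    ring

theorem Fe_mul (m : ℕ) (r : ℝ) :
    Fe m r * (1 - r) * (1 + r ^ op m) = 1 - (r ^ op m) ^ (2 ^ (padicValNat 2 m + 1)) := by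
  rw [← tel]
  unfold Fe
  have h1 : (∑ i ∈ range (op m), r ^ i) * (1 - r) = 1 - r ^ op m := by
    have := geom_sum_mul r (op m)
    linarith
  have h2 : ∀ a ∈ range (padicValNat 2 m), (1 + r ^ (2 ^ (a + 1) * op m) : ℝ) =
      1 + (r ^ op m) ^ (2 ^ (a + 1)) := by
    intro a _
    rw [← pow_mul, mul_comm (op m)]
  rw [Finset.prod_congr rfl h2, ← h1]
  ring

theorem Fe_le {m : ℕ} {r : ℝ} (hr : 0 < r) (hr1 : r < 1) : Fe m r ≤ (1 - r)⁻¹ := by
  have h1 := Fe_mul m r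
  have h2 : 0 ≤ (r ^ op m) ^ (2 ^ (padicValNat 2 m + 1)) := by positivity
  have h3 : 0 < 1 - r := by linarith
  have h4 : 0 ≤ Fe m r * (1 - r) := mul_nonneg (Fe_nonneg hr) h3.le
  have h5 : Fe m r * (1 - r) ≤ 1 := by
    have h6 : 0 ≤ Fe m r * (1 - r) * r ^ op m := mul_nonneg h4 (by positivity)
    nlinarith
  rw [← one_div, le_div_iff₀ h3]
  exact h5

end Pool.Agent.H66.UM
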