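import Pool.Agent.H66.UM.Base

/-!
# Project UM, module M1
-/

set_option autoImplicit false

namespace Pool.Agent.H66.UM

open PowerSeries Finset Pool.Agent.H37.UM

theorem maj_X_pow {r : ℝ} (hr : 0 < r) (n : ℕ) : Maj r ((X : ℤ⟦X⟧) ^ n) (r ^ n) := by
  intro K
  by_cases h : n < K
  · rw [Finset.sum_eq_single n]
    · simp [coeff_X_pow]
    · intro k _ hk
      simp [coeff_X_pow, hk]
    · intro hn
      exact absurd (Finset.mem_range.2 h) hn
  · rw [Finset.sum_eq_zero]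
    · positivity
    · intro k hk
      rw [Finset.mem_range] at hk
      simp [coeff_X_pow, show k ≠ n by omega]

theorem maj_neg {r : ℝ} {f : ℤ⟦X⟧} {A : ℝ} (h : Maj r f A) : Maj r (-f) A := by
  intro K
  refine le_trans (le_of_eq ?_) (h K)
  refine Finset.sum_congr rfl fun k _ => ?_
  simp

theorem w_one : w 1 = 1 - X := by
  unfold w
  ring

theorem iv_mul (n : ℕ) : (1 - X : ℤ⟦X⟧) * iv n = 1 - X ^ n := by
  unfold iv
  have := geom_sum_mul (X : ℤ⟦X⟧) n
  linear_combination -this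

/-- the majorant of `w 1 * F m` -/
theorem maj_wF (hM : MAJStmt) {r : ℝ} (hr : 0 < r) (hr1 : r < 1) {m : ℕ} (hm : 1 ≤ op m) :
    Maj r (w 1 * F m) (Fe m r * ((1 - r) * ((1 + r ^ op m) / (1 - r ^ op m)))) := by
  have h1r : 0 < 1 - r := by linarith
  have h2r : 0 < 1 - r ^ op m := by
    have : r ^ op m < 1 := pow_lt_one₀ hr.le hr1 (by omega)
    linarith
  have h1 : w 1 * F m = (1 - X ^ op m) *
      ∏ a ∈ range (padicValNat 2 m), (1 + X ^ (2 ^ (a + 1) * op m)) := by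
    rw [w_one, F, ← mul_assoc, iv_mul]
  have h2 : Fe m r * ((1 - r) * ((1 + r ^ op m) / (1 - r ^ op m))) =
      (1 + r ^ op m) * ∏ a ∈ range (padicValNat 2 m), (1 + r ^ (2 ^ (a + 1) * op m)) := by
    unfold Fe
    have h3 : (∑ i ∈ range (op m), r ^ i) * (1 - r) = 1 - r ^ op m := by
      have := geom_sum_mul r (op m)
      linarith
    have h4 : (∑ i ∈ range (op m), r ^ i) = (1 - r ^ op m) / (1 - r) := by
      rw [eq_div_iff h1r.ne', h3]
    rw [h4]
    field_simp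
  rw [h1, h2]
  have a1 : ∀ n : ℕ, Maj r (1 + X ^ n : ℤ⟦X⟧) (1 + r ^ n) := fun n =>
    hM.2.1 r _ _ _ _ hr (maj_one r) (maj_X_pow hr n)
  refine hM.1 r _ _ _ _ hr ?_ (maj_prod hM _ _ _ hr fun a _ => a1 _)
  rw [sub_eq_add_neg]
  exact hM.2.1 r _ _ _ _ hr (maj_one r) (maj_neg (maj_X_pow hr _))

theorem Te_split {j N : ℕ} (h : j ≤ N) (r : ℝ) :
    Te N r = (∏ m ∈ Icc 1 j, Fe m r) * ∏ m ∈ Ioc j N, Fe m r := by
  unfold Te
  rw [show Icc 1 N = Ioc 0 N from rfl, show Icc 1 j = Ioc 0 j from rfl]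
  exact (Finset.prod_Ioc_consecutive _ (Nat.zero_le j) h).symm

theorem SS_term_nonneg {r : ℝ} (hr : 0 < r) (hr1 : r < 1) (n : ℕ) :
    0 ≤ Real.log ((1 + r ^ n) / (1 - r ^ n)) := by
  rcases Nat.eq_zero_or_pos n with rfl | hn
  · simp
  · have h1 : r ^ n < 1 := pow_lt_one₀ hr.le hr1 (by omega)
    have h2 : 0 < r ^ n := by positivity
    refine Real.log_nonneg ?_
    rw [le_div_iff₀ (by linarith)]
    linarith

theorem SS_mono {r : ℝ} (hr : 0 < r) (hr1 : r < 1) {j N : ℕ} (h : j ≤ N) : SS j r ≤ SS N r := by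
  unfold SS
  refine Finset.sum_le_sum_of_subset_of_nonneg ?_ fun i _ _ => SS_term_nonneg hr hr1 _
  exact Finset.Icc_subset_Icc_right h

theorem M1_thm (hM : MAJStmt) (hP : PNStmt) (hR : RECStmt) (_hG : GENStmt) (hO : OPStmt)
    (_hA : MOAStmt) : M1Stmt := by
  intro N j k r hN hj hjN hr hr1
  have h1r : 0 < 1 - r := by linarith
  have hx1 : 0 < 1 - r ^ 2 := by nlinarith
  have hg1 : g 1 * w 1 = 1 := by rw [mul_comm]; exact wg le_rfl
  -- `den j = T j * w 1 ^ j`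
  have hden : den j = w 1 ^ j * T j := by
    rw [hR.2.1 j]
    rw [mul_left_comm, ← mul_pow, mul_comm (w 1), hg1, one_pow, mul_one]
  have hT : w 1 ^ j * T j = ∏ m ∈ Icc 1 j, (w 1 * F m) := by
    rw [Finset.prod_mul_distrib, Finset.prod_const, Nat.card_Icc, Nat.add_sub_cancel]
    rfl
  have hf : U j N * Q j = U j N * (∏ m ∈ Icc 1 j, (w 1 * F m)) * h2 j := by
    rw [Q, ← mul_assoc, hden, hT]
  rw [hf]
  have mU : Maj r (U j N) (∏ m ∈ Ioc j N, Fe m r) :=
    maj_prod hM _ _ _ hr fun m _ => hM.2.2.2.2.1 r m hr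
  have mW : Maj r (∏ m ∈ Icc 1 j, (w 1 * F m))
      (∏ m ∈ Icc 1 j, (Fe m r * ((1 - r) * ((1 + r ^ op m) / (1 - r ^ op m))))) := by
    refine maj_prod hM _ _ _ hr fun m hm => ?_
    rw [Finset.mem_Icc] at hm
    exact maj_wF hM hr hr1 (hO.1 m hm.1).2.1
  have mh := maj_h2 hM hP hr hr1 j
  have m1 := hM.2.2.2.2.2 r _ _ k hr (hM.1 r _ _ _ _ hr (hM.1 r _ _ _ _ hr mU mW) mh)
  refine m1.trans ?_
  -- compute
  have e1 : ∏ m ∈ Icc 1 j, ((1 + r ^ op m) / (1 - r ^ op m)) = Real.exp (SS j r) := by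
    unfold SS
    rw [Real.exp_sum]
    refine Finset.prod_congr rfl fun m hm => ?_
    rw [Finset.mem_Icc] at hm
    have h3 : r ^ op m < 1 := pow_lt_one₀ hr.le hr1 (by have := (hO.1 m hm.1).2.1; omega)
    have h4 : 0 < r ^ op m := by positivity
    rw [Real.exp_log (div_pos (by linarith) (by linarith))]
  have e2 : ∏ m ∈ Icc 1 j, (Fe m r * ((1 - r) * ((1 + r ^ op m) / (1 - r ^ op m)))) =
      (∏ m ∈ Icc 1 j, Fe m r) * ((1 - r) ^ j * Real.exp (SS j r)) := by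
    rw [Finset.prod_mul_distrib, Finset.prod_mul_distrib, e1, Finset.prod_const, Nat.card_Icc,
      Nat.add_sub_cancel]
  have e3 : (∏ m ∈ Ioc j N, Fe m r) *
      (∏ m ∈ Icc 1 j, (Fe m r * ((1 - r) * ((1 + r ^ op m) / (1 - r ^ op m))))) =
      Te N r * ((1 - r) ^ j * Real.exp (SS j r)) := by
    rw [e2, Te_split hjN]
    ring
  rw [e3]
  -- exponents
  have hTe : 0 ≤ Te N r := by
    unfold Te
    exact Finset.prod_nonneg fun m _ => Fe_nonneg hr
  have hlog : 0 < (1 + r) / (1 - r) := by positivity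
  have hlog1 : 0 ≤ Real.log ((1 + r) / (1 - r)) := by
    refine Real.log_nonneg ?_
    rw [le_div_iff₀ h1r]
    linarith
  have e4 : (1 - r) ^ j * (1 - r ^ 2) ^ (-(j : ℝ) / 2) =
      Real.exp (-((j : ℝ) * (Real.log ((1 + r) / (1 - r)) / 2))) := by
    have h5 : (1 - r) ^ j = Real.exp ((j : ℝ) * Real.log (1 - r)) := by
      rw [Real.exp_nat_mul, Real.exp_log h1r]
    have h6 : (1 - r ^ 2) ^ (-(j : ℝ) / 2) =
        Real.exp ((Real.log (1 - r) + Real.log (1 + r)) * (-(j : ℝ) / 2)) := by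
      rw [Real.rpow_def_of_pos hx1, ← Real.log_mul h1r.ne' (by linarith)]
      congr 3
      ring
    rw [h5, h6, ← Real.exp_add, Real.log_div (by linarith) h1r.ne']
    congr 1
    ring
  have e5 : Real.exp (-((j : ℝ) * (Real.log ((1 + r) / (1 - r)) / 2))) * Real.exp (SS j r) *
      Real.exp (2.5651 * √(j : ℝ)) ≤ Real.exp (-A1 N r) := by
    rw [← Real.exp_add, ← Real.exp_add]
    refine Real.exp_le_exp.2 ?_
    unfold A1
    have h7 := SS_mono hr hr1 hjN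
    have h8 : √(j : ℝ) ≤ √(N : ℝ) := Real.sqrt_le_sqrt (by exact_mod_cast hjN)
    have h9 : ((N : ℝ) - 2) * (Real.log ((1 + r) / (1 - r)) / 2) ≤
        (j : ℝ) * (Real.log ((1 + r) / (1 - r)) / 2) := by
      refine mul_le_mul_of_nonneg_right ?_ (by linarith)
      have : (N : ℝ) ≤ (j : ℝ) + 2 := by exact_mod_cast hj
      linarith
    linarith
  have e6 : 0 < (r ^ k)⁻¹ := by positivity
  calc (1 + r) * (Te N r * ((1 - r) ^ j * Real.exp (SS j r)) *
        (Real.exp (2.5651 * √(j : ℝ)) * (1 - r ^ 2) ^ (-(j : ℝ) / 2))) * (r ^ k)⁻¹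
      = (1 + r) * (r ^ k)⁻¹ * Te N r * (((1 - r) ^ j * (1 - r ^ 2) ^ (-(j : ℝ) / 2)) *
          Real.exp (SS j r) * Real.exp (2.5651 * √(j : ℝ))) := by ring
    _ ≤ (1 + r) * (r ^ k)⁻¹ * Te N r * Real.exp (-A1 N r) := by
        rw [e4]
        exact mul_le_mul_of_nonneg_left e5 (by positivity)
    _ ≤ 2 * (r ^ k)⁻¹ * Te N r * Real.exp (-A1 N r) := by
        refine mul_le_mul_of_nonneg_right ?_ (Real.exp_pos _).le
        refine mul_le_mul_of_nonneg_right ?_ hTe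
        exact mul_le_mul_of_nonneg_right (by linarith) e6.le

end Pool.Agent.H66.UM
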