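import Pool.Agent.H66.UM.Base

/-!
# Project UM, module M2
-/

set_option autoImplicit false

namespace Pool.Agent.H66.UM

open PowerSeries Finset Pool.Agent.H37.UM

theorem cc_le (n i : ℕ) : (cc n i : ℝ) ≤ Real.log n / Real.log 2 + 1 := by
  unfold cc
  have hl : 0 ≤ Real.log n / Real.log 2 :=
    div_nonneg (Real.log_natCast_nonneg n) (Real.log_nonneg (by norm_num))
  split_ifs with h
  · push_cast
    linarith
  · have h1 : Nat.log 2 (n / i) ≤ Nat.log 2 n := Nat.log_mono_right (Nat.div_le_self n i)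
    have h2 : (Nat.log 2 n : ℝ) ≤ Real.logb 2 n := Real.natLog_le_logb n 2
    have h3 : (Nat.log 2 (n / i) : ℝ) ≤ (Nat.log 2 n : ℝ) := by exact_mod_cast h1
    push_cast
    rw [Real.logb] at h2
    linarith

theorem prod_le_exp {r : ℝ} (hr : 0 < r) (hr1 : r < 1) (n : ℕ) :
    ∏ i ∈ Icc 1 n, (1 + r ^ i) ^ cc n i ≤
      Real.exp ((Real.log n / Real.log 2 + 1) * (r / (1 - r))) := by
  have hl : 0 ≤ Real.log n / Real.log 2 :=
    div_nonneg (Real.log_natCast_nonneg n) (Real.log_nonneg (by norm_num))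
  have h1 : ∀ i ∈ Icc 1 n, (1 + r ^ i) ^ cc n i ≤
      Real.exp ((Real.log n / Real.log 2 + 1) * r ^ i) := by
    intro i _
    have h2 : 1 + r ^ i ≤ Real.exp (r ^ i) := by
      have := Real.add_one_le_exp (r ^ i)
      linarith
    have h3 : 0 < r ^ i := by positivity
    calc (1 + r ^ i) ^ cc n i ≤ (Real.exp (r ^ i)) ^ cc n i :=
          pow_le_pow_left₀ (by positivity) h2 _
      _ = Real.exp ((cc n i : ℝ) * r ^ i) := by rw [← Real.exp_nat_mul]
      _ ≤ _ := Real.exp_le_exp.2 (mul_le_mul_of_nonneg_right (cc_le n i) h3.le)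
  calc ∏ i ∈ Icc 1 n, (1 + r ^ i) ^ cc n i
      ≤ ∏ i ∈ Icc 1 n, Real.exp ((Real.log n / Real.log 2 + 1) * r ^ i) :=
        Finset.prod_le_prod (fun i _ => by positivity) h1
    _ = Real.exp ((Real.log n / Real.log 2 + 1) * ∑ i ∈ Icc 1 n, r ^ i) := by
        rw [← Real.exp_sum, Finset.mul_sum]
    _ ≤ _ := by
        refine Real.exp_le_exp.2 (mul_le_mul_of_nonneg_left ?_ (by linarith))
        have h4 : ∑ i ∈ Icc 1 n, r ^ i = r * ∑ i ∈ range n, r ^ i := by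
          rw [Finset.mul_sum]
          rw [show Icc 1 n = Ico 1 (n + 1) from rfl, Finset.sum_Ico_eq_sum_range]
          refine Finset.sum_congr rfl fun i _ => ?_
          rw [pow_add, pow_one]
        rw [h4]
        have h5 : (∑ i ∈ range n, r ^ i) * (1 - r) = 1 - r ^ n := by
          have := geom_sum_mul r n
          linarith
        have h6 : 0 < 1 - r := by linarith
        rw [div_eq_mul_inv]
        refine mul_le_mul_of_nonneg_left ?_ hr.le
        rw [← one_div, le_div_iff₀ h6, h5]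
        have : 0 < r ^ n := by positivity
        linarith

theorem M2_thm (hM : MAJStmt) (hP : PNStmt) (hR : RECStmt) (_hG : GENStmt) : M2Stmt := by
  intro N j k r hN h1 hjN hr hr1
  have hx1 : 0 < 1 - r ^ 2 := by nlinarith
  have h1r : 0 < 1 - r := by linarith
  have hf : U j N * Q j = den N * g 1 ^ (N - j) * h2 j := by
    rw [Q, ← mul_assoc, hR.2.2 j N hjN]
  rw [hf]
  have m1 : Maj r (den N) (Real.exp ((Real.log N / Real.log 2 + 1) * (r / (1 - r)))) := by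
    refine maj_mono (A := ∏ i ∈ Icc 1 N, (1 + r ^ i) ^ cc N i) ?_ (prod_le_exp hr hr1 N)
    exact maj_prod hM _ _ _ hr fun i _ => maj_pow hM hr (hM.2.2.1 r i hr) _
  have m2 : Maj r (g 1 ^ (N - j)) (((1 - r) ^ 2)⁻¹) := by
    have m3 := maj_pow hM hr (hM.2.2.2.1 r 1 hr hr1 le_rfl) (N - j)
    refine maj_mono m3 ?_
    rw [pow_one, one_div, ← inv_pow]
    refine pow_le_pow_right₀ ?_ (by omega)
    exact (one_le_inv₀ h1r).2 (by linarith)
  have m4 := maj_h2 hM hP hr hr1 j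
  have m5 := hM.1 r _ _ _ _ hr (hM.1 r _ _ _ _ hr m1 m2) m4
  have m6 := hM.2.2.2.2.2 r _ _ k hr m5
  refine m6.trans ?_
  have e1 : Real.exp (2.5651 * √(j : ℝ)) ≤ Real.exp (2.5651 * √(N : ℝ)) := by
    refine Real.exp_le_exp.2 (mul_le_mul_of_nonneg_left ?_ (by norm_num))
    exact Real.sqrt_le_sqrt (by exact_mod_cast hjN)
  have e2 : (1 - r ^ 2) ^ (-(j : ℝ) / 2) ≤ (1 - r ^ 2) ^ (-(N : ℝ) / 2) := by
    refine Real.rpow_le_rpow_of_exponent_ge hx1 (by nlinarith [sq_nonneg r]) ?_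
    have : (j : ℝ) ≤ N := by exact_mod_cast hjN
    linarith
  have e3 : 0 < (1 - r ^ 2) ^ (-(j : ℝ) / 2) := Real.rpow_pos_of_pos hx1 _
  have e4 : 0 < (r ^ k)⁻¹ := by positivity
  have e5 : 0 < ((1 - r) ^ 2)⁻¹ := by positivity
  rw [Real.exp_add]
  have e6 : Real.exp (2.5651 * √(j : ℝ)) * (1 - r ^ 2) ^ (-(j : ℝ) / 2) ≤
      Real.exp (2.5651 * √(N : ℝ)) * (1 - r ^ 2) ^ (-(N : ℝ) / 2) :=
    mul_le_mul e1 e2 e3.le (Real.exp_pos _).le
  have e7 : 0 < (1 + r) * Real.exp ((Real.log N / Real.log 2 + 1) * (r / (1 - r))) *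
      ((1 - r) ^ 2)⁻¹ * (r ^ k)⁻¹ := by positivity
  calc (1 + r) * (Real.exp ((Real.log N / Real.log 2 + 1) * (r / (1 - r))) * ((1 - r) ^ 2)⁻¹ *
        (Real.exp (2.5651 * √(j : ℝ)) * (1 - r ^ 2) ^ (-(j : ℝ) / 2))) * (r ^ k)⁻¹
      = ((1 + r) * Real.exp ((Real.log N / Real.log 2 + 1) * (r / (1 - r))) *
          ((1 - r) ^ 2)⁻¹ * (r ^ k)⁻¹) *
          (Real.exp (2.5651 * √(j : ℝ)) * (1 - r ^ 2) ^ (-(j : ℝ) / 2)) := by ring
    _ ≤ ((1 + r) * Real.exp ((Real.log N / Real.log 2 + 1) * (r / (1 - r))) *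
          ((1 - r) ^ 2)⁻¹ * (r ^ k)⁻¹) *
          (Real.exp (2.5651 * √(N : ℝ)) * (1 - r ^ 2) ^ (-(N : ℝ) / 2)) :=
        mul_le_mul_of_nonneg_left e6 e7.le
    _ = _ := by ring

end Pool.Agent.H66.UM
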