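import Pool.Agent.H66.UM.Base

/-!
# Project UM, module M3
-/

set_option autoImplicit false

namespace Pool.Agent.H66.UM

open PowerSeries Finset Pool.Agent.H37.UM

theorem wt_nonneg {r : ℝ} (hr : 0 < r) (hr1 : r < 1) (i c m : ℕ) : 0 ≤ wt r i c m := by
  unfold wt
  have h : r ^ i ≤ 1 := pow_le_one₀ hr.le hr1.le
  have h' : 0 ≤ 1 - r ^ i := by linarith
  split_ifs
  · positivity
  · positivity

theorem maj_Q (hM : MAJStmt) {r q : ℝ} (hr : 0 < r) (hr1 : r < 1) (hq : 0 < q) (j : ℕ) :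
    Maj r (Q j) ((q ^ j)⁻¹ * ((1 + r) ^ cc j 1 *
      ∏ i ∈ Icc 2 j, ∑ m ∈ range (j / i + 1), wt r i (cc j i) m * q ^ (i * m))) := by
  classical
  have hQ : Q j = ∑ p ∈ P2 j, (w 1 ^ cc j 1 *
      ∏ i ∈ Icc 2 j, (w i ^ cc j i * g i ^ p.parts.count i)) := by
    rw [Q, h2_eq, Finset.mul_sum]
    refine Finset.sum_congr rfl fun p hp => ?_
    rw [parts_prod g hp, Finset.prod_mul_distrib, ← mul_assoc]
    congr 1
    unfold den
    rcases Nat.eq_zero_or_pos j with rfl | hj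
    · simp [cc]
    · rw [← Finset.insert_Icc_add_one_left_eq_Icc hj, Finset.prod_insert (by simp)]
      rfl
  rw [hQ]
  have h1 : ∀ p ∈ P2 j, Maj r (w 1 ^ cc j 1 *
      ∏ i ∈ Icc 2 j, (w i ^ cc j i * g i ^ p.parts.count i))
      ((1 + r) ^ cc j 1 * ∏ i ∈ Icc 2 j, wt r i (cc j i) (p.parts.count i)) := by
    intro p _
    refine hM.1 r _ _ _ _ hr ?_ ?_
    · have := hM.2.2.1 r 1 hr
      rw [pow_one] at this
      exact maj_pow hM hr this _
    · refine maj_prod hM _ _ _ hr fun i hi => ?_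
      rw [Finset.mem_Icc] at hi
      exact maj_wt hM hr hr1 (by omega) _ _
  refine maj_mono (maj_sum hM _ _ _ hr h1) ?_
  rw [← Finset.mul_sum]
  have h2 := sum_le_prod (fun i m => wt r i (cc j i) m * q ^ (i * m))
    (fun i m => mul_nonneg (wt_nonneg hr hr1 _ _ _) (by positivity)) j
  have h3 : ∑ p ∈ P2 j, ∏ i ∈ Icc 2 j, (wt r i (cc j i) (p.parts.count i) *
      q ^ (i * p.parts.count i)) =
      (∑ p ∈ P2 j, ∏ i ∈ Icc 2 j, wt r i (cc j i) (p.parts.count i)) * q ^ j := by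
    rw [Finset.sum_mul]
    refine Finset.sum_congr rfl fun p hp => ?_
    rw [Finset.prod_mul_distrib, Finset.prod_pow_eq_pow_sum]
    congr 2
    conv_rhs => rw [← count_sum hp]
    exact Finset.sum_congr rfl fun i _ => mul_comm _ _
  rw [h3] at h2
  have hqj : 0 < q ^ j := by positivity
  have h4 : ∑ p ∈ P2 j, ∏ i ∈ Icc 2 j, wt r i (cc j i) (p.parts.count i) ≤
      (q ^ j)⁻¹ * ∏ i ∈ Icc 2 j, ∑ m ∈ range (j / i + 1), wt r i (cc j i) m * q ^ (i * m) := by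
    rw [inv_mul_eq_div, le_div_iff₀ hqj]
    exact h2
  calc (1 + r) ^ cc j 1 * ∑ p ∈ P2 j, ∏ i ∈ Icc 2 j, wt r i (cc j i) (p.parts.count i)
      ≤ (1 + r) ^ cc j 1 * ((q ^ j)⁻¹ *
          ∏ i ∈ Icc 2 j, ∑ m ∈ range (j / i + 1), wt r i (cc j i) m * q ^ (i * m)) :=
        mul_le_mul_of_nonneg_left h4 (by positivity)
    _ = _ := by ring

theorem maj_U (hM : MAJStmt) {r : ℝ} (hr : 0 < r) (j N : ℕ) :
    Maj r (U j N) (∏ m ∈ Ioc j N, Fe m r) :=
  maj_prod hM _ _ _ hr fun m _ => hM.2.2.2.2.1 r m hr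

theorem M3_thm (hM : MAJStmt) (_hG : GENStmt) : M3Stmt := by
  intro N j k r q _ hr hr1 hq
  have h1 := hM.2.2.2.2.2 r _ _ k hr
    (hM.1 r _ _ _ _ hr (maj_U hM hr j N) (maj_Q hM hr hr1 hq j))
  refine h1.trans (le_of_eq ?_)
  ring

end Pool.Agent.H66.UM
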