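import Pool.Agent.H66.UM.Base

/-!
# Project UM, module M4
-/

set_option autoImplicit false

namespace Pool.Agent.H66.UM

open PowerSeries Finset Pool.Agent.H37.UM

theorem q_pow_lt {r q : ℝ} (hr : 0 < r) (hr1 : r < 1) (hq : 0 < q) (hqr : q ^ 2 < 1 - r ^ 2)
    {i : ℕ} (hi : 2 ≤ i) : q ^ i < 1 - r ^ i := by
  refine lt_of_lt_of_le ?_ (one_sub_pow_ge hr hr1 hi)
  have h1 : q ^ i = (q ^ 2) ^ ((i : ℝ) / 2) := by
    rw [← Real.rpow_natCast q 2, ← Real.rpow_mul hq.le]
    rw [show ((2 : ℕ) : ℝ) * ((i : ℝ) / 2) = (i : ℝ) by push_cast; ring, Real.rpow_natCast]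
  rw [h1]
  refine Real.rpow_lt_rpow (by positivity) hqr ?_
  have : (2 : ℝ) ≤ i := by exact_mod_cast hi
  linarith

theorem M4_thm (hM : MAJStmt) (_hR : RECStmt) (_hG : GENStmt) : M4Stmt := by
  classical
  intro N j k r q hjN hr hr1 hq hqr
  have h1r : 0 < 1 - r := by linarith
  have mU : Maj r (U j N) (((1 - r)⁻¹) ^ (N - j)) := by
    refine maj_mono (maj_prod hM _ _ _ hr fun m _ => hM.2.2.2.2.1 r m hr) ?_
    calc ∏ m ∈ Ioc j N, Fe m r ≤ ∏ _m ∈ Ioc j N, (1 - r)⁻¹ :=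
          Finset.prod_le_prod (fun m _ => Fe_nonneg hr) fun m _ => Fe_le hr hr1
      _ = _ := by rw [Finset.prod_const, Nat.card_Ioc]
  have mD : Maj r (den j) (∏ i ∈ Icc 1 j, (1 + r ^ i) ^ cc j i) :=
    maj_prod hM _ _ _ hr fun i _ => maj_pow hM hr (hM.2.2.1 r i hr) _
  have hpos : ∀ i ∈ Icc 2 j, 0 < 1 - r ^ i := by
    intro i hi
    rw [Finset.mem_Icc] at hi
    have : r ^ i < 1 := pow_lt_one₀ hr.le hr1 (by omega)
    linarith
  have mh : Maj r (h2 j) ((q ^ j)⁻¹ * ∏ i ∈ Icc 2 j, (1 - q ^ i / (1 - r ^ i))⁻¹) := by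
    rw [h2_eq]
    have m1 : ∀ p ∈ P2 j, Maj r ((p.parts.map g).prod)
        (∏ i ∈ Icc 2 j, (1 / (1 - r ^ i)) ^ p.parts.count i) := by
      intro p hp
      rw [parts_prod g hp]
      refine maj_prod hM _ _ _ hr fun i hi => ?_
      rw [Finset.mem_Icc] at hi
      exact maj_pow hM hr (hM.2.2.2.1 r i hr hr1 (by omega)) _
    refine maj_mono (maj_sum hM _ _ _ hr m1) ?_
    -- the weights, made nonnegative for all `i`
    have h2 := sum_le_prod (fun i m => |q ^ i / (1 - r ^ i)| ^ m) (fun i m => by positivity) j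
    have h3 : ∑ p ∈ P2 j, ∏ i ∈ Icc 2 j, |q ^ i / (1 - r ^ i)| ^ (p.parts.count i) =
        (∑ p ∈ P2 j, ∏ i ∈ Icc 2 j, (1 / (1 - r ^ i)) ^ p.parts.count i) * q ^ j := by
      rw [Finset.sum_mul]
      refine Finset.sum_congr rfl fun p hp => ?_
      have h4 : q ^ j = ∏ i ∈ Icc 2 j, (q ^ i) ^ p.parts.count i := by
        conv_lhs => rw [← count_sum hp]
        rw [← Finset.prod_pow_eq_pow_sum]
        exact Finset.prod_congr rfl fun i _ => by rw [← pow_mul, mul_comm]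
      rw [h4, ← Finset.prod_mul_distrib]
      refine Finset.prod_congr rfl fun i hi => ?_
      have := hpos i hi
      rw [abs_of_pos (by positivity), ← mul_pow]
      congr 1
      ring
    rw [h3] at h2
    have hqj : 0 < q ^ j := by positivity
    rw [inv_mul_eq_div, le_div_iff₀ hqj]
    refine h2.trans ?_
    refine Finset.prod_le_prod ?_ ?_
    · intro i _
      exact Finset.sum_nonneg fun m _ => by positivity
    · intro i hi
      have h5 := hpos i hi
      rw [Finset.mem_Icc] at hi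
      have h6 := q_pow_lt hr hr1 hq hqr hi.1
      have h7 : 0 < q ^ i / (1 - r ^ i) := by positivity
      have h8 : q ^ i / (1 - r ^ i) < 1 := by rw [div_lt_one h5]; exact h6
      rw [abs_of_pos h7]
      have h9 : (∑ m ∈ range (j / i + 1), (q ^ i / (1 - r ^ i)) ^ m) * (1 - q ^ i / (1 - r ^ i)) =
          1 - (q ^ i / (1 - r ^ i)) ^ (j / i + 1) := by
        have := geom_sum_mul (q ^ i / (1 - r ^ i)) (j / i + 1)
        linarith
      rw [← one_div, le_div_iff₀ (by linarith), h9]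
      have : 0 < (q ^ i / (1 - r ^ i)) ^ (j / i + 1) := by positivity
      linarith
  have m1 := hM.2.2.2.2.2 r _ _ k hr (hM.1 r _ _ _ _ hr mU (hM.1 r _ _ _ _ hr mD mh))
  refine m1.trans (le_of_eq ?_)
  ring

end Pool.Agent.H66.UM
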